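import Pool.Agent.H94.PG.M15
import Pool.Agent.H94.PG.M20

/-!
# LQ / PG stage 2: the analytic part

`M = m/2`, `χ` from `t7'`; `DD_le`, `lam_sum`, `hyper` (as in PG/Analytic): `M ‖L(1,χ)‖ ≤ M ρ^(1/16)`.
`lift`: `L(1, χ')` for the character `χ'` mod `N` induced by `χ` mod `m | N`: `LFunction_changeLevel`, every factor
`‖1 - χ(p)/p‖ ≤ 1 + 1/p ≤ (1 - 1/p)⁻¹`, so the product is `≤ N/φ(N) ≤ 2 + 2 log N` (`tot_log`).
-/

set_option autoImplicit false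

namespace Pool.Agent.H78.PH

open Finset
open Pool.Agent.H34PG (lam lam_val lam_mul lam_prime)
open Pool.Agent.H11.LQ Pool.Agent.H78.PG

theorem analytic2_par : ∃ C : ℕ, ∃ m0 : ℕ, ∀ (m : ℕ) [NeZero m], m0 ≤ m → ∀ ρ : ℝ, Rho C m ρ →
    ∀ η : ℤ, Hyp2 ρ m η → ∃ χ : DirichletCharacter ℂ m, χ ^ 2 = 1 ∧ χ ≠ 1 ∧ χ (-1) = (η : ℂ) ∧
      ‖DirichletCharacter.LFunction χ 1‖ ≤ ρ ^ (1 / 16 : ℝ) := by
  obtain ⟨C1, m1, H1⟩ := t7'
  obtain ⟨m3, H3⟩ := prod_le (1 / 100) (by norm_num)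
  obtain ⟨m4, H4⟩ := KK_le (1 / 100) (by norm_num)
  obtain ⟨C5, m5, H5⟩ := small 3 1 (1 / 13 - 1 / 16) (by norm_num)
  obtain ⟨m6, H6⟩ := grow 30 0 (1 / 10) (by norm_num)
  obtain ⟨m7, H7⟩ := rho_pow 1 0 (1 / 16) (1 / 1000) (by norm_num) (by norm_num)
  refine ⟨max C1 C5, max 4 (max m1 (max m3 (max m4 (max m5 (max m6 m7))))),
    fun m _ hm ρ hρ η hH => ?_⟩
  simp only [max_le_iff] at hm
  obtain ⟨hm4', hm1, hm3, hm4, hm5, hm6, hm7⟩ := hm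
  have hρ1 : Rho C1 m ρ := Rho_mono (le_max_left _ _) (by omega) hρ
  have hρ5 : Rho C5 m ρ := Rho_mono (le_max_right _ _) (by omega) hρ
  have hρ0 : Rho 0 m ρ := Rho_mono (Nat.zero_le _) (by omega) hρ
  have hρp : 0 < ρ := hρ.1
  obtain ⟨χ, hχ2, hχ1, hpar, hχM⟩ := H1 m hm1 ρ hρ1 η hH
  have hP := H3 m hm3
  have hK := H4 m hm4
  have hL := H5 m hm5 ρ hρ5
  have hG := H6 m hm6
  have hR := H7 m hm7 ρ hρ0
  rw [pow_one] at hL
  rw [pow_zero, mul_one] at hG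
  rw [pow_zero, mul_one, one_mul] at hR
  refine ⟨χ, hχ2, hχ1, hpar, ?_⟩
  set M : ℕ := m / 2 with hM
  have hM1 : 1 ≤ M := by omega
  have hM2 : 2 * M ≤ m := by omega
  have hmR : (4 : ℝ) ≤ m := by exact_mod_cast hm4'
  have hm0 : (0 : ℝ) < m := by linarith only [hmR]
  have hm1' : (1 : ℝ) ≤ m := by linarith only [hmR]
  have hMR1 : (1 : ℝ) ≤ M := by exact_mod_cast hM1
  have hMR0 : (0 : ℝ) < M := by linarith only [hMR1]
  have hM4 : (m : ℝ) ≤ 4 * M := by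
    have : m ≤ 4 * M := by omega
    exact_mod_cast this
  have hMm : (M : ℝ) ≤ m := by
    have : M ≤ m := by omega
    exact_mod_cast this
  -- the square root of M
  have hsM : (m : ℝ) ^ (1 / 2 : ℝ) ≤ 2 * Real.sqrt M := by
    rw [← Real.sqrt_eq_rpow]
    have h4 : Real.sqrt m ≤ Real.sqrt (4 * M) := Real.sqrt_le_sqrt hM4
    have h5 : Real.sqrt (4 * M) = 2 * Real.sqrt M := by
      rw [Real.sqrt_mul (by norm_num), show (4 : ℝ) = 2 ^ 2 by norm_num,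
        Real.sqrt_sq (by norm_num)]
    linarith only [h4, h5]
  have hKM : KK m ≤ M := by
    have h4 : (m : ℝ) ^ (1 / 2 + 1 / 100 : ℝ) * (m : ℝ) ^ (1 / 10 : ℝ) ≤ m := by
      rw [← Real.rpow_add hm0]
      calc (m : ℝ) ^ (1 / 2 + 1 / 100 + 1 / 10 : ℝ) ≤ (m : ℝ) ^ (1 : ℝ) :=
            Real.rpow_le_rpow_of_exponent_le hm1' (by norm_num)
        _ = m := Real.rpow_one _
    have h5 : 0 ≤ (m : ℝ) ^ (1 / 2 + 1 / 100 : ℝ) := Real.rpow_nonneg hm0.le _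
    nlinarith only [hK, hMR1, hM4, h4, hG, h5]
  have hHy := hyper m χ hχ1 M hM1 hKM
  have hDD := DD_le m M χ (ρ ^ (1 / 13 : ℝ)) (Real.rpow_nonneg hρp.le _)
    (fun N hN1 hN2 => by
      rw [mul_comm]
      exact hχM N hN1 (by omega))
  have hLam := lam_sum m M (by omega)
  -- the three error terms
  set T : ℝ := ρ ^ (1 / 16 : ℝ) with hT
  have hT0 : 0 < T := Real.rpow_pos_of_pos hρp _
  have hs0 : 0 < Real.sqrt M := Real.sqrt_pos.2 hMR0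
  have hss : Real.sqrt M * Real.sqrt M = M := Real.mul_self_sqrt hMR0.le
  have hTm : 1 ≤ T * (m : ℝ) ^ (1 / 1000 : ℝ) := by
    have h4 : (m : ℝ) ^ (-(1 / 1000 : ℝ)) * (m : ℝ) ^ (1 / 1000 : ℝ) = 1 := by
      rw [← Real.rpow_add hm0]
      rw [show -(1 / 1000 : ℝ) + 1 / 1000 = 0 by ring, Real.rpow_zero]
    have h5 : 0 ≤ (m : ℝ) ^ (1 / 1000 : ℝ) := Real.rpow_nonneg hm0.le _
    have := mul_le_mul_of_nonneg_right hR h5
    linarith only [h4, this]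
  have hgen : ∀ a : ℝ, a ≤ 3 / 10 → 15 * ((m : ℝ) ^ a * (m : ℝ) ^ (1 / 1000 : ℝ)) ≤ Real.sqrt M := by
    intro a ha
    have h6 : (m : ℝ) ^ (1 / 10 : ℝ) * ((m : ℝ) ^ a * (m : ℝ) ^ (1 / 1000 : ℝ))
        ≤ (m : ℝ) ^ (1 / 2 : ℝ) := by
      rw [← Real.rpow_add hm0, ← Real.rpow_add hm0]
      exact Real.rpow_le_rpow_of_exponent_le hm1' (by linarith only [ha])
    have h7 : 0 ≤ (m : ℝ) ^ a * (m : ℝ) ^ (1 / 1000 : ℝ) := by positivity
    have h8 : 30 * ((m : ℝ) ^ a * (m : ℝ) ^ (1 / 1000 : ℝ)) ≤ (m : ℝ) ^ (1 / 2 : ℝ) :=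
      (mul_le_mul_of_nonneg_right hG h7).trans h6
    linarith only [hsM, h8]
  have hgen2 : ∀ a : ℝ, a ≤ 3 / 10 → Real.sqrt M * (m : ℝ) ^ a ≤ M * T / 15 := by
    intro a ha
    have h5 := hgen a ha
    have h7 : 0 ≤ (m : ℝ) ^ a := Real.rpow_nonneg hm0.le _
    have h9 : Real.sqrt M * (m : ℝ) ^ a
        ≤ Real.sqrt M * ((m : ℝ) ^ a * (m : ℝ) ^ (1 / 1000 : ℝ)) * T := by
      calc Real.sqrt M * (m : ℝ) ^ a = Real.sqrt M * (m : ℝ) ^ a * 1 := by ring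
        _ ≤ Real.sqrt M * (m : ℝ) ^ a * (T * (m : ℝ) ^ (1 / 1000 : ℝ)) :=
          mul_le_mul_of_nonneg_left hTm (by positivity)
        _ = _ := by ring
    have h10 : Real.sqrt M * ((m : ℝ) ^ a * (m : ℝ) ^ (1 / 1000 : ℝ)) ≤ M / 15 := by
      have := mul_le_mul_of_nonneg_left h5 hs0.le
      rw [hss] at this
      linarith only [this]
    have h11 := mul_le_mul_of_nonneg_right h10 hT0.le
    linarith only [h9, h11]
  have hMT : 0 < M * T := by positivity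
  have e1 : Real.sqrt M * ∏ p ∈ m.primeFactors, (1 - (p : ℝ) ^ (-(1 / 2 : ℝ)))⁻¹ ≤ M * T / 15 := by
    have h8 : Real.sqrt M * ∏ p ∈ m.primeFactors, (1 - (p : ℝ) ^ (-(1 / 2 : ℝ)))⁻¹
        ≤ Real.sqrt M * (m : ℝ) ^ (1 / 100 : ℝ) := mul_le_mul_of_nonneg_left hP hs0.le
    exact h8.trans (hgen2 _ (by norm_num))
  have e2 : (M : ℝ) * (ρ ^ (1 / 13 : ℝ) * (1 + Real.log M)) ≤ M * T / 3 := by
    have h4 : Real.log M ≤ Real.log m := Real.log_le_log hMR0 hMm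
    have h5 : ρ ^ (1 / 13 : ℝ) = T * ρ ^ (1 / 13 - 1 / 16 : ℝ) := by
      rw [hT, ← Real.rpow_add hρp]
      congr 1
      norm_num
    have h6 : 0 ≤ ρ ^ (1 / 13 - 1 / 16 : ℝ) := Real.rpow_nonneg hρp.le _
    have h7 : ρ ^ (1 / 13 : ℝ) * (1 + Real.log M) ≤ T / 3 := by
      rw [h5]
      have h8 : (1 + Real.log M) * ρ ^ (1 / 13 - 1 / 16 : ℝ) ≤ 1 / 3 := by
        have : (1 + Real.log M) * ρ ^ (1 / 13 - 1 / 16 : ℝ)
            ≤ (1 + Real.log m) * ρ ^ (1 / 13 - 1 / 16 : ℝ) :=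
          mul_le_mul_of_nonneg_right (by linarith only [h4]) h6
        linarith only [hL, this]
      have := mul_le_mul_of_nonneg_left h8 hT0.le
      linarith only [this]
    have := mul_le_mul_of_nonneg_left h7 hMR0.le
    linarith only [this]
  have e3 : 5 * Real.sqrt (M * KK m) ≤ M * T / 3 := by
    have h4 : Real.sqrt (M * KK m) ≤ Real.sqrt M * (m : ℝ) ^ (51 / 200 : ℝ) := by
      rw [Real.sqrt_mul hMR0.le]
      refine mul_le_mul_of_nonneg_left ?_ hs0.le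
      have h5 : Real.sqrt (KK m) ≤ Real.sqrt ((m : ℝ) ^ (1 / 2 + 1 / 100 : ℝ)) :=
        Real.sqrt_le_sqrt hK
      have h6 : Real.sqrt ((m : ℝ) ^ (1 / 2 + 1 / 100 : ℝ)) = (m : ℝ) ^ (51 / 200 : ℝ) := by
        rw [Real.sqrt_eq_rpow, ← Real.rpow_mul hm0.le]
        congr 1
        norm_num
      linarith only [h5, h6]
    have h5 := hgen2 (51 / 200) (by norm_num)
    linarith only [h4, h5]
  -- conclusion
  have hfin : (M : ℝ) * ‖DirichletCharacter.LFunction χ 1‖ ≤ M * T := by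
    have h4 : ‖(M : ℂ) * DirichletCharacter.LFunction χ 1‖
        ≤ ‖DD m M χ‖ + ‖DD m M χ - M * DirichletCharacter.LFunction χ 1‖ := by
      have : (M : ℂ) * DirichletCharacter.LFunction χ 1
          = DD m M χ - (DD m M χ - M * DirichletCharacter.LFunction χ 1) := by ring
      rw [this]
      refine (norm_sub_le _ _).trans (le_of_eq ?_)
      rw [← this]
    rw [norm_mul, Complex.norm_natCast] at h4
    linarith
  exact le_of_mul_le_mul_left hfin hMR0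

/-- the analytic part, written out -/
theorem analytic2_std_par : ∃ C : ℕ, ∃ m0 : ℕ, ∀ (m : ℕ) [NeZero m], m0 ≤ m → ∀ ρ : ℝ,
    (m : ℝ) ^ (-(1 / 100 : ℝ)) ≤ ρ → ρ * Real.log m ^ C ≤ 1 → ∀ η : ℤ, (η = 1 ∨ η = -1) →
    (∀ q : ℕ, q.Prime → (q : ℝ) ≤ Real.log m ^ 800 → ((Ex m η q).card : ℝ) ≤ ρ * m) →
    ∃ χ : DirichletCharacter ℂ m, χ ^ 2 = 1 ∧ χ ≠ 1 ∧ χ (-1) = (η : ℂ) ∧
      ‖DirichletCharacter.LFunction χ 1‖ ≤ ρ ^ (1 / 16 : ℝ) := by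
  obtain ⟨C, m0, H⟩ := analytic2_par
  refine ⟨C, max m0 3, fun m _ hm ρ h1 h2 η hη hE => ?_⟩
  have hm3 : (3 : ℝ) ≤ m := by exact_mod_cast (le_max_right _ _).trans hm
  have hlog : 0 ≤ Real.log m := Real.log_nonneg (by linarith only [hm3])
  have hρ : 0 < ρ := lt_of_lt_of_le (Real.rpow_pos_of_pos (by linarith only [hm3]) _) h1
  refine H m ((le_max_left _ _).trans hm) ρ ⟨hρ, h1, h2⟩ η ⟨hη, fun q hq hqb => hE q hq ?_⟩
  exact (Nat.cast_le.2 hqb).trans (Nat.floor_le (pow_nonneg hlog _))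

/-- the Euler factors at the primes dividing `N` -/
theorem lift_prod {N : ℕ} [NeZero N] {q : ℕ} (ψ : DirichletCharacter ℂ q) :
    ‖∏ p ∈ N.primeFactors, (1 - ψ p * (p : ℂ) ^ (-(1 : ℂ)))‖ ≤ 2 + 2 * Real.log N := by
  have hN0 : (N : ℝ) ≠ 0 := by exact_mod_cast NeZero.ne N
  have hNpos : (0 : ℝ) < N := by exact_mod_cast Nat.pos_of_ne_zero (NeZero.ne N)
  have hφ : (0 : ℝ) < N.totient := by
    exact_mod_cast Nat.totient_pos.2 (Nat.pos_of_ne_zero (NeZero.ne N))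
  have h1 : ((N.totient : ℚ) : ℝ) = ((N * ∏ p ∈ N.primeFactors, (1 - (p : ℚ)⁻¹) : ℚ) : ℝ) := by
    rw [Nat.totient_eq_mul_prod_factors]
  push_cast at h1
  have hP : ∀ p ∈ N.primeFactors, (0 : ℝ) < 1 - (p : ℝ)⁻¹ := by
    intro p hp
    have hp2 : (2 : ℝ) ≤ p := by exact_mod_cast (Nat.prime_of_mem_primeFactors hp).two_le
    have : (p : ℝ)⁻¹ ≤ 2⁻¹ := inv_anti₀ (by norm_num) hp2
    norm_num at this ⊢
    linarith
  have h2 : ‖∏ p ∈ N.primeFactors, (1 - ψ p * (p : ℂ) ^ (-(1 : ℂ)))‖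
      ≤ ∏ p ∈ N.primeFactors, (1 - (p : ℝ)⁻¹)⁻¹ := by
    rw [norm_prod]
    refine Finset.prod_le_prod (fun p _ => norm_nonneg _) fun p hp => ?_
    have h3 : ‖ψ p * (p : ℂ) ^ (-(1 : ℂ))‖ ≤ (p : ℝ)⁻¹ := by
      rw [Complex.cpow_neg, Complex.cpow_one, norm_mul, norm_inv, Complex.norm_natCast]
      have h3 := DirichletCharacter.norm_le_one ψ (p : ZMod q)
      have h4 : (0 : ℝ) ≤ (p : ℝ)⁻¹ := by positivity
      exact mul_le_of_le_one_left h4 h3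
    have h5 : ‖(1 : ℂ) - ψ p * (p : ℂ) ^ (-(1 : ℂ))‖ ≤ 1 + (p : ℝ)⁻¹ := by
      refine (norm_sub_le _ _).trans ?_
      rw [norm_one]
      linarith
    refine h5.trans ?_
    have h6 := hP p hp
    have h7 : (1 + (p : ℝ)⁻¹) * (1 - (p : ℝ)⁻¹) ≤ 1 := by nlinarith only [sq_nonneg ((p : ℝ)⁻¹)]
    calc 1 + (p : ℝ)⁻¹ ≤ 1 / (1 - (p : ℝ)⁻¹) := (le_div_iff₀ h6).2 h7
      _ = (1 - (p : ℝ)⁻¹)⁻¹ := one_div _
  have h3 : (∏ p ∈ N.primeFactors, (1 - (p : ℝ)⁻¹)⁻¹) = (N : ℝ) / N.totient := by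
    rw [Finset.prod_inv_distrib, h1]
    have h4 : (0 : ℝ) < ∏ p ∈ N.primeFactors, (1 - (p : ℝ)⁻¹) := Finset.prod_pos hP
    field_simp
  rw [h3] at h2
  refine h2.trans ?_
  rw [div_le_iff₀ hφ]
  exact tot_log N (Nat.pos_of_ne_zero (NeZero.ne N))

theorem lift_par (m N : ℕ) [NeZero m] [NeZero N] (h : m ∣ N) (χ : DirichletCharacter ℂ m)
    (h2 : χ ^ 2 = 1) (h1 : χ ≠ 1) : ∃ χ' : DirichletCharacter ℂ N, χ' ^ 2 = 1 ∧ χ' ≠ 1 ∧
      χ' (-1) = χ (-1) ∧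
      ‖DirichletCharacter.LFunction χ' 1‖
        ≤ (2 + 2 * Real.log N) * ‖DirichletCharacter.LFunction χ 1‖ := by
  refine ⟨DirichletCharacter.changeLevel h χ, ?_, ?_, ?_, ?_⟩
  · rw [← map_pow, h2, map_one]
  · intro hh
    apply h1
    apply DirichletCharacter.changeLevel_injective h
    rw [hh, map_one]
  · have h4 := DirichletCharacter.changeLevel_eq_cast_of_dvd χ h (-1)
    rw [Units.val_neg, Units.val_one] at h4
    rw [h4]
    congr 1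
    rw [ZMod.cast_neg h, ZMod.cast_one h]
  · have h3 := DirichletCharacter.LFunction_changeLevel h χ (s := 1) (Or.inl h1)
    rw [h3, norm_mul, mul_comm]
    exact mul_le_mul_of_nonneg_right (lift_prod χ) (norm_nonneg _)

end Pool.Agent.H78.PH
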